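import Mathlib

/-!
# The involution of a quadratic extension
-/

set_option autoImplicit false

namespace Pool.Agent.Helper77.M

open Polynomial

theorem inv_of_quad {K E : Type*} [Field K] [CharZero K] [Field E] [Algebra K E]
    (B : IntermediateField K E) (t : E) (ht : IntermediateField.adjoin B {t} = ⊤) (p : B[X])
    (hp : p ≠ 0) (hd : p.natDegree ≤ 2) (h0 : aeval t p = 0) :
    B = ⊤ ∨ ∃ σ : E ≃ₐ[K] E, (∀ b ∈ B, σ b = b) ∧ (∀ φ, σ (σ φ) = φ) ∧
      ∀ φ, σ φ = φ → φ ∈ B := by
  have hi : IsIntegral B t := by
    rw [← isAlgebraic_iff_isIntegral]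
    exact ⟨p, hp, h0⟩
  have hfd : FiniteDimensional B (IntermediateField.adjoin B {t}) :=
    IntermediateField.adjoin.finiteDimensional hi
  have hfr : Module.finrank B (IntermediateField.adjoin B {t}) = (minpoly B t).natDegree :=
    IntermediateField.adjoin.finrank hi
  have hle : (minpoly B t).natDegree ≤ 2 :=
    (Polynomial.natDegree_le_of_dvd (minpoly.dvd B t h0) hp).trans hd
  rw [ht] at hfd hfr
  have hE : Module.finrank B E = (minpoly B t).natDegree := by
    rw [← hfr]
    exact (LinearEquiv.finrank_eq (IntermediateField.topEquiv (F := B) (E := E)).toLinearEquiv).symm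
  have hfE : FiniteDimensional B E := Module.Finite.equiv
    (IntermediateField.topEquiv (F := B) (E := E)).toLinearEquiv
  have hpos : 0 < Module.finrank B E := Module.finrank_pos
  rcases (show Module.finrank B E = 1 ∨ Module.finrank B E = 2 by omega) with h1 | h2
  · left
    have h3 : (⊥ : Subalgebra B E) = ⊤ := Subalgebra.bot_eq_top_iff_finrank_eq_one.2 h1
    rw [eq_top_iff]
    intro e _
    have h4 : e ∈ (⊥ : Subalgebra B E) := by
      rw [h3]
      exact Algebra.mem_top
    rw [Algebra.mem_bot] at h4
    obtain ⟨b, rfl⟩ := h4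
    exact b.2
  · right
    have hq : Algebra.IsQuadraticExtension B E := ⟨h2⟩
    have hc : CharZero B := charZero_of_injective_algebraMap (algebraMap K B).injective
    have hG : IsGalois B E := inferInstance
    have hcard : Nat.card (E ≃ₐ[B] E) = 2 := by
      rw [IsGalois.card_aut_eq_finrank, h2]
    obtain ⟨σ, hσ⟩ : ∃ σ : E ≃ₐ[B] E, σ ≠ 1 := by
      by_contra hne
      push Not at hne
      have : Subsingleton (E ≃ₐ[B] E) := ⟨fun a b => by rw [hne a, hne b]⟩
      have h5 := Nat.card_of_subsingleton (1 : E ≃ₐ[B] E)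
      rw [hcard] at h5
      exact absurd h5 (by norm_num)
    have hall : ∀ g : E ≃ₐ[B] E, g = 1 ∨ g = σ := by
      intro g
      have h6 : Fintype (E ≃ₐ[B] E) := Fintype.ofFinite _
      rw [Nat.card_eq_fintype_card] at hcard
      by_contra hne
      push Not at hne
      classical
      have h7 : ({1, σ, g} : Finset (E ≃ₐ[B] E)).card = 3 := by
        rw [Finset.card_eq_three]
        exact ⟨1, σ, g, hσ.symm, hne.1.symm, hne.2.symm, rfl⟩
      have h8 := Finset.card_le_univ ({1, σ, g} : Finset (E ≃ₐ[B] E))
      rw [h7, hcard] at h8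
      exact absurd h8 (by norm_num)
    refine ⟨σ.restrictScalars K, fun b hb => ?_, fun φ => ?_, fun φ hφ => ?_⟩
    · exact σ.commutes ⟨b, hb⟩
    · have h9 := hall (σ * σ)
      rcases h9 with h9 | h9
      · exact congrArg (fun f : E ≃ₐ[B] E => f φ) h9
      · exact absurd (mul_eq_left.1 h9) hσ
    · have h10 := (IsGalois.mem_range_algebraMap_iff_fixed (F := B) φ).2 fun f => by
        rcases hall f with h | h
        · rw [h]
          rfl
        · rw [h]
          exact hφ
      obtain ⟨b, rfl⟩ := h10
      exact b.2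

end Pool.Agent.Helper77.M
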