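import Mathlib
import Pool.Agent.Helper47.M.Defs
import Pool.Agent.Helper28.M.A
import Pool.Agent.Helper77.M.Quad

/-!
# Theorem M: the covering involution of a factor with `N s = l`
-/

set_option autoImplicit false

namespace Pool.Agent.Helper77.M

open Pool.Agent.Helper47.M
open Pool.Agent.Helper28.M.A (fv_map dv_map dv_add dv_smul dv_eq_sum euler fv_one fv_two)
open Pool.Agent.Helper76.M (exists_two)

variable {k l : ℕ} {N : Fin k → ℕ} {d : Fin l → Fin k → ℕ}

theorem dv_one {e : Fin k → ℕ} {S : Type*} [CommRing S] (a : Tn N e → S) (x : Pt N S) (j : Fin k)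
    (h : e j = 1) (y b : Fin (N j + 1) → S) : dv a (Function.update x j y) j b = dv a x j b := by
  rw [← fv_one a _ j h, ← fv_one a _ j h, Function.update_idem]

theorem dv_two {e : Fin k → ℕ} {S : Type*} [CommRing S] (a : Tn N e → S) (x : Pt N S) (j : Fin k)
    (h : e j = 2) (y b : Fin (N j + 1) → S) :
    dv a (Function.update x j y) j b = dv a (Function.update x j b) j y := by
  have h1 := fv_two a (Function.update x j y) j h 1 1 b
  have h2 := fv_two a (Function.update x j b) j h 1 1 y
  rw [Function.update_idem, Function.update_idem, Function.update_self] at h1 h2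
  have h3 : (fun i => 1 * b i + 1 * y i) = fun i => 1 * y i + 1 * b i := by
    funext i
    ring
  rw [h3, h1] at h2
  linear_combination h2

/-! ### Linear algebra -/

/-- The coordinates of a solution of many linear equations over `B` lie in `B + B t`. -/
theorem exists_param {B E : Type*} [Field B] [Field E] [Algebra B E] {n : ℕ} {I : Type*}
    [Fintype I] (x : Fin (n + 1) → E) (h1 : x 0 = 1) (L : I → Fin (n + 1) → B)
    (hL : LinearIndependent B L) (hI : n ≤ Fintype.card I + 1)
    (h0 : ∀ i, ∑ e, algebraMap B E (L i e) * x e = 0) (e1 : Fin (n + 1))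
    (ht : x e1 ∉ (algebraMap B E).range) :
    ∃ Y0 Y1 : Fin (n + 1) → B, Y0 0 = 1 ∧ Y1 0 = 0 ∧ Y1 ≠ 0 ∧
      (∀ i, ∑ e, L i e * Y1 e = 0) ∧
      ∀ e, x e = algebraMap B E (Y0 e) + x e1 * algebraMap B E (Y1 e) := by
  obtain ⟨f, hf⟩ : ∃ f : (Fin (n + 1) → B) →ₗ[B] E, ∀ y, f y = ∑ e, algebraMap B E (y e) * x e :=
    ⟨Fintype.linearCombination B x, fun y => by
      rw [Fintype.linearCombination_apply]
      simp only [Algebra.smul_def]⟩
  have hrn := LinearMap.finrank_range_add_finrank_ker f
  rw [Module.finrank_fin_fun] at hrn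
  have hker : Fintype.card I ≤ Module.finrank B (LinearMap.ker f) := by
    have h2 : Submodule.span B (Set.range L) ≤ LinearMap.ker f := by
      rw [Submodule.span_le]
      rintro _ ⟨i, rfl⟩
      rw [SetLike.mem_coe, LinearMap.mem_ker, hf]
      exact h0 i
    have h3 := finrank_span_eq_card hL
    rw [← h3]
    exact Submodule.finrank_mono h2
  have hr2 : Module.finrank B (LinearMap.range f) ≤ 2 := by omega
  have hmem : ∀ e, x e ∈ LinearMap.range f := fun e => ⟨Pi.single e 1, by
    rw [hf, Finset.sum_eq_single e]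
    · simp
    · intro e' _ h
      simp [Pi.single_eq_of_ne h]
    · intro h
      exact absurd (Finset.mem_univ _) h⟩
  have hli : LinearIndependent B ![(1 : E), x e1] := by
    rw [LinearIndependent.pair_iff]
    intro s t hst
    have ht0 : t = 0 := by
      by_contra hne
      refine ht ⟨-(s / t), ?_⟩
      have h4 : algebraMap B E t ≠ 0 := by
        intro h5
        exact hne ((algebraMap B E).injective (by rw [h5, map_zero]))
      rw [Algebra.smul_def, Algebra.smul_def] at hst
      rw [map_neg, map_div₀]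
      field_simp
      linear_combination -hst
    refine ⟨?_, ht0⟩
    rw [ht0, zero_smul, add_zero, Algebra.smul_def, mul_one] at hst
    exact (algebraMap B E).injective (by rw [hst, map_zero])
  have hspan : Submodule.span B (Set.range ![(1 : E), x e1]) = LinearMap.range f := by
    refine Submodule.eq_of_le_of_finrank_le ?_ ?_
    · rw [Submodule.span_le]
      rintro _ ⟨i, rfl⟩
      fin_cases i
      · show (1 : E) ∈ LinearMap.range f
        rw [← h1]
        exact hmem 0
      · exact hmem e1
    · rw [finrank_span_eq_card hli, Fintype.card_fin]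
      exact hr2
  have hex : ∀ e, ∃ p : B × B, x e = algebraMap B E p.1 + x e1 * algebraMap B E p.2 := by
    intro e
    have h5 := hmem e
    rw [← hspan] at h5
    have h6 : Set.range ![(1 : E), x e1] = {1, x e1} := by
      simp [Matrix.range_cons, Set.pair_comm]
    rw [h6, Submodule.mem_span_pair] at h5
    obtain ⟨s, t, hst⟩ := h5
    refine ⟨(s, t), ?_⟩
    rw [← hst, Algebra.smul_def, Algebra.smul_def]
    ring
  choose p hp using hex
  rw [LinearIndependent.pair_iff] at hli
  have key : ∀ s t : B, algebraMap B E s + x e1 * algebraMap B E t = 0 → s = 0 ∧ t = 0 := by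
    intro s t h
    refine hli s t ?_
    rw [Algebra.smul_def, Algebra.smul_def]
    linear_combination h
  have k0 := key ((p 0).1 - 1) (p 0).2 (by
    rw [map_sub, map_one]
    linear_combination h1 - hp 0)
  have k1 := key (p e1).1 ((p e1).2 - 1) (by
    rw [map_sub, map_one]
    linear_combination - hp e1)
  refine ⟨fun e => (p e).1, fun e => (p e).2, sub_eq_zero.1 k0.1, k0.2, ?_, fun i => ?_, hp⟩
  · intro h
    have h7 := congrFun h e1
    simp only [Pi.zero_apply] at h7
    have h8 := k1.2
    rw [h7] at h8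
    norm_num at h8
  · refine (key (∑ e, L i e * (p e).1) (∑ e, L i e * (p e).2) ?_).2
    rw [← h0 i, map_sum, map_sum, Finset.mul_sum, ← Finset.sum_add_distrib]
    refine Finset.sum_congr rfl fun e _ => ?_
    rw [hp e, map_mul, map_mul]
    ring

/-! ### The involution -/

variable {K E : Type} [Field K] [Field E] [Algebra K E]

theorem mem_Bf (x : Pt N E) (s j : Fin k) (hj : j ≠ s) (i : Fin (N j + 1)) :
    x j i ∈ Bf K x {s} :=
  IntermediateField.subset_adjoin K _ ⟨j, hj, i, rfl⟩

theorem Bf_le (x : Pt N E) (J : Set (Fin k)) (F : IntermediateField K E)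
    (h : ∀ j, j ∉ J → ∀ e, x j e ∈ F) : Bf K x J ≤ F := by
  unfold Bf
  rw [IntermediateField.adjoin_le_iff]
  rintro _ ⟨j, hj, e, rfl⟩
  exact h j hj e

open Classical in
/-- The point with coordinates in the field of the other factors. -/
noncomputable def xb (K : Type) {E : Type} [Field K] [Field E] [Algebra K E] (x : Pt N E)
    (s : Fin k) : Pt N (Bf K x {s}) :=
  fun j i => if h : j = s then 0 else ⟨x j i, mem_Bf x s j h i⟩

theorem xb_upd (x : Pt N E) (s : Fin k) (Y : Fin (N s + 1) → Bf K x {s}) :
    (fun r i => algebraMap (Bf K x {s}) E (Function.update (xb K x s) s Y r i)) =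
      Function.update x s fun i => algebraMap (Bf K x {s}) E (Y i) := by
  funext r i
  by_cases h : r = s
  · subst h
    rw [Function.update_self, Function.update_self]
  · rw [Function.update_of_ne h, Function.update_of_ne h, xb, dif_neg h]
    rfl

theorem alg_c {e : Fin k → ℕ} (c : Tn N e → K) (B : IntermediateField K E) :
    (fun m => algebraMap B E (algebraMap K B (c m))) = fun m => algebraMap K E (c m) := by
  funext m
  exact (IsScalarTower.algebraMap_apply K B E (c m)).symm

theorem exists_inv [CharZero K] (h : Ty N d) (c : Tx N d → K) (hc : AllNice K c) (x : Pt N E)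
    (hx : FullPt K c x) (r : Fin k) (hr : N r = l + 1) (s : Fin k) (hs : N s = l) :
    Bf K x {s} = ⊤ ∨ ∃ σ : E ≃ₐ[K] E, (∀ j, j ≠ s → ∀ i, σ (x j i) = x j i) ∧
      (∀ φ, σ (σ φ) = φ) ∧ ∀ φ, σ φ = φ → φ ∈ Bf K x {s} := by
  classical
  obtain ⟨i0, hi0, hi⟩ := exists_two h s hs
  obtain ⟨hn, -⟩ := hc r hr E x (hx.gen r)
  have hall : ∀ B' : IntermediateField (Bf K x {s}) E,
      (∀ e, x s e ∈ B') → B' = ⊤ := by
    intro B' hB'
    rw [eq_top_iff]
    intro y _
    have h1 : y ∈ Bf K x ∅ := by
      rw [hx.top]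
      exact IntermediateField.mem_top
    have h2 : Bf K x ∅ ≤ B'.restrictScalars K := by
      refine Bf_le x ∅ _ fun j _ e => ?_
      rw [IntermediateField.mem_restrictScalars]
      by_cases hj : j = s
      · subst hj
        exact hB' e
      · exact B'.algebraMap_mem ⟨x j e, mem_Bf x s j hj e⟩
    exact h2 h1
  by_cases hB : ∀ e, x s e ∈ Bf K x {s}
  · left
    have h3 := hall ⊥ fun e => by
      rw [IntermediateField.mem_bot]
      exact ⟨⟨x s e, hB e⟩, rfl⟩
    rw [eq_top_iff]
    intro y _
    have h4 : y ∈ (⊥ : IntermediateField (Bf K x {s}) E) := by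
      rw [h3]
      exact IntermediateField.mem_top
    rw [IntermediateField.mem_bot] at h4
    obtain ⟨b, rfl⟩ := h4
    exact b.2
  push Not at hB
  obtain ⟨e1, he1⟩ := hB
  -- the rows
  obtain ⟨L, hL⟩ : ∃ L : {i // i ≠ i0} → Fin (N s + 1) → Bf K x {s},
      L = fun i e => dv (fun m => algebraMap K (Bf K x {s}) (c ⟨i.1, m⟩))
        (Function.update (xb K x s) s 0) s (Pi.single e 1) := ⟨_, rfl⟩
  have hLE : ∀ (i : {i // i ≠ i0}) e, algebraMap (Bf K x {s}) E (L i e) =
      dF (fun e => algebraMap K E (c e)) x s (Pi.single e 1) i.1 := by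
    intro i e
    have h5 := dv_map (algebraMap (Bf K x {s}) E)
      (fun m => algebraMap K (Bf K x {s}) (c ⟨i.1, m⟩)) (Function.update (xb K x s) s 0) s
      (Pi.single e 1)
    rw [hL]
    rw [h5, alg_c, xb_upd]
    have h6 : (fun i => algebraMap (Bf K x {s}) E ((Pi.single e 1 :
        Fin (N s + 1) → Bf K x {s}) i)) = Pi.single e 1 := by
      funext j
      by_cases hj : j = e
      · subst hj
        simp
      · simp [Pi.single_eq_of_ne hj]
    rw [h6, dv_one _ _ _ (hi i.1 i.2)]
    rfl
  have hsum : ∀ (i : {i // i ≠ i0}) (y : Fin (N s + 1) → E),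
      ∑ e, algebraMap (Bf K x {s}) E (L i e) * y e =
        dF (fun e => algebraMap K E (c e)) x s y i.1 := by
    intro i y
    have h7 := dv_eq_sum (fun m => algebraMap K E (c ⟨i.1, m⟩)) x s y
    change _ = dv (fun m => algebraMap K E (c ⟨i.1, m⟩)) x s y
    rw [h7]
    refine Finset.sum_congr rfl fun e _ => ?_
    rw [hLE, mul_comm]
    rfl
  have hind : LinearIndependent (Bf K x {s}) L := by
    rw [Fintype.linearIndependent_iff]
    intro g hg i
    have h8 := hn.j2 s hs i0 hi0 (fun i => if hi : i ≠ i0 then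
      algebraMap (Bf K x {s}) E (g ⟨i, hi⟩) else 0) (by simp) fun b => by
      have h9 : ∑ i, (if hi : i ≠ i0 then algebraMap (Bf K x {s}) E (g ⟨i, hi⟩) else 0) *
          dF (fun e => algebraMap K E (c e)) x s b i =
          ∑ i : {i // i ≠ i0}, algebraMap (Bf K x {s}) E (g i) *
            dF (fun e => algebraMap K E (c e)) x s b i.1 := by
        have q1 := Finset.sum_subtype (Finset.univ.filter fun i => i ≠ i0)
          (p := fun i => i ≠ i0) (F := inferInstance) (by simp)
          (fun i => (if hi : i ≠ i0 then algebraMap (Bf K x {s}) E (g ⟨i, hi⟩) else 0) *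
            dF (fun e => algebraMap K E (c e)) x s b i)
        rw [Finset.sum_filter_of_ne] at q1
        · rw [q1]
          refine Finset.sum_congr rfl fun i _ => ?_
          rw [dif_pos i.2]
        · intro i _ hne hi1
          apply hne
          rw [dif_neg (by rw [hi1]; simp), zero_mul]
      rw [h9]
      have h10 : ∀ i : {i // i ≠ i0}, algebraMap (Bf K x {s}) E (g i) *
            dF (fun e => algebraMap K E (c e)) x s b i.1 =
          ∑ e, algebraMap (Bf K x {s}) E (g i * L i e) * b e := by
        intro i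
        rw [← hsum, Finset.mul_sum]
        refine Finset.sum_congr rfl fun e _ => ?_
        rw [map_mul]
        ring
      rw [Finset.sum_congr rfl fun i _ => h10 i, Finset.sum_comm]
      refine Finset.sum_eq_zero fun e _ => ?_
      rw [← Finset.sum_mul, ← map_sum]
      have h11 := congrFun hg e
      simp only [Finset.sum_apply, Pi.smul_apply, smul_eq_mul, Pi.zero_apply] at h11
      rw [h11, map_zero, zero_mul]
    have h12 := congrFun h8 i.1
    simp only [dif_pos i.2, Pi.zero_apply] at h12
    exact (algebraMap (Bf K x {s}) E).injective (by rw [h12, map_zero])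
  have hzero : ∀ i : {i // i ≠ i0}, ∑ e, algebraMap (Bf K x {s}) E (L i e) * x s e = 0 := by
    intro i
    rw [hsum]
    have h13 := euler (fun m => algebraMap K E (c ⟨i.1, m⟩)) x s
    have h14 : fv (fun m => algebraMap K E (c ⟨i.1, m⟩)) x = 0 := hx.eq i.1
    rw [h14, mul_zero] at h13
    exact h13
  obtain ⟨Y0, Y1, hY0, hY1, hY1n, hLY, hxY⟩ := exists_param (x s) (hx.one s) L hind (by
    rw [Fintype.card_subtype_compl, Fintype.card_fin, Fintype.card_subtype_eq]
    omega) hzero e1 (by
    rintro ⟨b, hb⟩
    exact he1 (hb ▸ b.2))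
  -- the quadratic equation
  obtain ⟨y0, hy0⟩ : ∃ y : Fin (N s + 1) → E, y = fun e => algebraMap (Bf K x {s}) E (Y0 e) :=
    ⟨_, rfl⟩
  obtain ⟨y1, hy1⟩ : ∃ y : Fin (N s + 1) → E, y = fun e => algebraMap (Bf K x {s}) E (Y1 e) :=
    ⟨_, rfl⟩
  obtain ⟨t, ht⟩ : ∃ t, t = x s e1 := ⟨_, rfl⟩
  have hxy : x s = fun e => y0 e + t * y1 e := by
    rw [hy0, hy1, ht]
    funext e
    exact hxY e
  obtain ⟨a', ha'⟩ : ∃ a' : Tn N (d i0) → E, a' = fun m => algebraMap K E (c ⟨i0, m⟩) := ⟨_, rfl⟩
  obtain ⟨aB, haB⟩ : ∃ aB : Tn N (d i0) → Bf K x {s},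
    aB = fun m => algebraMap K (Bf K x {s}) (c ⟨i0, m⟩) := ⟨_, rfl⟩
  have hab : (fun m => algebraMap (Bf K x {s}) E (aB m)) = a' := by
    rw [haB, ha', alg_c]
  obtain ⟨q0, hq0⟩ : ∃ q, q = fv aB (Function.update (xb K x s) s Y0) := ⟨_, rfl⟩
  obtain ⟨q1, hq1⟩ : ∃ q, q = dv aB (Function.update (xb K x s) s Y0) s Y1 := ⟨_, rfl⟩
  obtain ⟨q2, hq2⟩ : ∃ q, q = fv aB (Function.update (xb K x s) s Y1) := ⟨_, rfl⟩
  have hq0E : algebraMap (Bf K x {s}) E q0 = fv a' (Function.update x s y0) := by
    rw [hq0, fv_map, hab, xb_upd, hy0]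
  have hq1E : algebraMap (Bf K x {s}) E q1 = dv a' (Function.update x s y0) s y1 := by
    rw [hq1, dv_map, hab, xb_upd, hy0, hy1]
  have hq2E : algebraMap (Bf K x {s}) E q2 = fv a' (Function.update x s y1) := by
    rw [hq2, fv_map, hab, xb_upd, hy1]
  have hroot : fv a' (Function.update x s y0) + t * dv a' (Function.update x s y0) s y1 +
      t ^ 2 * fv a' (Function.update x s y1) = 0 := by
    have h15 := fv_two a' (Function.update x s y0) s hi0 1 t y1
    rw [Function.update_idem, Function.update_idem, Function.update_self] at h15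
    have h16 : Function.update x s (fun i => 1 * y0 i + t * y1 i) = x := by
      rw [Function.update_eq_self_iff, hxy]
      funext e
      ring
    rw [h16] at h15
    have h17 : fv a' x = 0 := by
      rw [ha']
      exact hx.eq i0
    rw [h17] at h15
    linear_combination -h15
  have hne : ¬ (q1 = 0 ∧ q2 = 0) := by
    rintro ⟨h1, h2⟩
    rw [h1, map_zero] at hq1E
    rw [h2, map_zero] at hq2E
    have h18 : dv a' x s y1 = 0 := by
      have h19 := dv_two a' x s hi0 (x s) y1
      rw [Function.update_eq_self] at h19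
      have h26 := dv_add a' (Function.update x s y1) s y0 fun e => t * y1 e
      rw [← hxy, dv_smul, dv_two a' x s hi0 y1 y0, ← hq1E] at h26
      have h27 := euler a' (Function.update x s y1) s
      rw [Function.update_self, ← hq2E, mul_zero] at h27
      rw [h19, h26, h27]
      ring
    refine hY1n ?_
    have h20 := hn.j3 s hs i0 hi0 y1 (by rw [hy1]; simp [hY1]) (fun i => ?_) ?_
    · funext e
      have h21 := congrFun h20 e
      rw [hy1] at h21
      exact (algebraMap (Bf K x {s}) E).injective (h21.trans (map_zero _).symm)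
    · by_cases hii : i = i0
      · subst hii
        rw [ha'] at h18
        exact h18
      · have h22 := hsum ⟨i, hii⟩ y1
        rw [← h22, hy1]
        have h23 := congrArg (algebraMap (Bf K x {s}) E) (hLY ⟨i, hii⟩)
        rw [map_sum, map_zero] at h23
        rw [← h23]
        refine Finset.sum_congr rfl fun e _ => ?_
        rw [map_mul]
    · rw [ha'] at hq2E
      exact hq2E.symm
  obtain ⟨p, hp⟩ : ∃ p : Polynomial (Bf K x {s}), p = Polynomial.C q0 + Polynomial.C q1 *
    Polynomial.X + Polynomial.C q2 * Polynomial.X ^ 2 := ⟨_, rfl⟩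
  have hfin := inv_of_quad (Bf K x {s}) t (hall _ fun e => ?_) p ?_ ?_ ?_
  · rcases hfin with h24 | ⟨σ, hσ, hσσ, hσf⟩
    · exact Or.inl h24
    · exact Or.inr ⟨σ, fun j hj i => hσ _ (mem_Bf x s j hj i), hσσ, hσf⟩
  · have htm : t ∈ IntermediateField.adjoin (Bf K x {s}) {t} :=
      IntermediateField.mem_adjoin_simple_self _ t
    rw [hxY e]
    exact add_mem (IntermediateField.algebraMap_mem _ _)
      (mul_mem (ht ▸ htm) (IntermediateField.algebraMap_mem _ _))
  · intro h0
    refine hne ⟨?_, ?_⟩
    · have h25 := congrArg (fun p => Polynomial.coeff p 1) h0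
      rw [hp] at h25
      simpa [Polynomial.coeff_X, Polynomial.coeff_C, Polynomial.coeff_X_pow] using h25
    · have h25 := congrArg (fun p => Polynomial.coeff p 2) h0
      rw [hp] at h25
      simpa [Polynomial.coeff_X, Polynomial.coeff_C, Polynomial.coeff_X_pow] using h25
  · rw [hp]
    compute_degree
  · rw [hp]
    simp only [map_add, map_mul, map_pow, Polynomial.aeval_C, Polynomial.aeval_X]
    rw [hq0E, hq1E, hq2E]
    linear_combination hroot

end Pool.Agent.Helper77.M
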